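import Pool.Agent.Lib_helper75.Sparse.Final

/-!
A nontrivial three-dimensional subshift of finite type with sparse vertical trace and expansive
horizontal action.
-/

open Pool.Agent.Lib_helper75.Sparse

namespace Pool.Agent.Results.MP_82f4c8_an.SparseExpansive

/-- There is a nontrivial SFT `X ⊆ {0,1}^{ℤ³}` whose vertical trace is sparse and whose horizontal
`ℤ²`-subdynamics is expansive. -/
theorem result : ∃ X : Set Config, IsSFT X ∧ (∃ x ∈ X, ∃ u, x u = true) ∧
    IsSparse (trace X) ∧ HorizontallyExpansive X :=
  main_sparse

end Pool.Agent.Results.MP_82f4c8_an.SparseExpansive
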